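import Pool.Agent.U140.FM.StmT
set_option autoImplicit false
/-! Project FM (helper140), package R (helper95): the root. -/
namespace Pool.Agent.U140.FM.PkgR
open Finset

/-- the sleeping vertices if the child `[i]` of the root has the type `c i` -/
def Rs (c : Fin 4 → Fin 7) : Set Vt := {x | ∃ i, x ∈ conf [i] (c i)}

/-- the reward if there are `m` awake frogs at the root -/
noncomputable def R (n K m : ℕ) (c : Fin 4 → Fin 7) : ℝ := FT n K (List.replicate m []) (Rs c)

lemma mem_conf {i : Fin 4} {t : Fin 7} {x : Vt} :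
    x ∈ conf [i] t ↔ ∃ p : List (Fin 4), x = p.reverse ++ [i] ∧ sl t p := Iff.rfl

lemma mem_below {i : Fin 4} {x : Vt} : x ∈ below [i] ↔ ∃ p : List (Fin 4), x = p ++ [i] := by
  constructor
  · rintro ⟨p, hp⟩
    exact ⟨p, hp.symm⟩
  · rintro ⟨p, hp⟩
    exact ⟨p, hp.symm⟩

lemma conf_below {i : Fin 4} {t : Fin 7} {x : Vt} (h : x ∈ conf [i] t) : x ∈ below [i] := by
  obtain ⟨p, hp, -⟩ := h
  exact mem_below.2 ⟨_, hp⟩

lemma below_inj {i k : Fin 4} {x : Vt} (h : x ∈ below [i]) (h' : x ∈ below [k]) : i = k := by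
  obtain ⟨p, hp⟩ := mem_below.1 h
  obtain ⟨q, hq⟩ := mem_below.1 h'
  rw [hp] at hq
  have := (List.append_inj' hq rfl).2
  simpa using this

lemma nil_not_below (i : Fin 4) : ([] : Vt) ∉ below [i] := by
  intro h
  obtain ⟨p, hp⟩ := mem_below.1 h
  simp at hp

lemma Rs_zero : Rs (fun _ => 0) = {v : Vt | v ≠ []} := by
  ext x
  constructor
  · rintro ⟨i, h⟩ rfl
    exact nil_not_below i (conf_below h)
  · intro h
    have hx : x ≠ [] := h
    refine ⟨x.getLast hx, x.dropLast.reverse, ?_, ?_⟩
    · rw [List.reverse_reverse]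
      exact (List.dropLast_append_getLast hx).symm
    · cases x.dropLast.reverse with
      | nil => exact rfl
      | cons a p => exact Or.inl rfl

lemma Rs_inter (c : Fin 4 → Fin 7) (i : Fin 4) : Rs c ∩ below [i] = conf [i] (c i) := by
  ext x
  constructor
  · rintro ⟨⟨k, hk⟩, hx⟩
    obtain rfl := below_inj hx (conf_below hk)
    exact hk
  · intro h
    exact ⟨⟨i, h⟩, conf_below h⟩

lemma Rs_update (c : Fin 4 → Fin 7) (i : Fin 4) (u : Fin 7) :
    Rs c \ below [i] ∪ conf [i] u = Rs (Function.update c i u) := by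
  ext x
  constructor
  · rintro (⟨⟨k, hk⟩, hx⟩ | h)
    · have hki : k ≠ i := by
        rintro rfl
        exact hx (conf_below hk)
      exact ⟨k, by rw [Function.update_of_ne hki]; exact hk⟩
    · exact ⟨i, by rw [Function.update_self]; exact h⟩
  · rintro ⟨k, hk⟩
    by_cases hki : k = i
    · subst hki
      rw [Function.update_self] at hk
      exact Or.inr hk
    · rw [Function.update_of_ne hki] at hk
      refine Or.inl ⟨⟨k, hk⟩, ?_⟩
      intro hx
      exact hki (below_inj (conf_below hk) hx)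

lemma rt_nonneg (v : Vt) : 0 ≤ rt v := by
  unfold rt
  split_ifs <;> norm_num

lemma R_zero (n K : ℕ) (c : Fin 4 → Fin 7) : R n K 0 c = 0 := F_nil _ _ _ _ _

lemma R_nonneg (n K m : ℕ) (c : Fin 4 → Fin 7) : 0 ≤ R n K m c := F_nonneg _ _ _ _ rt_nonneg _ _

lemma R_conc (n K m : ℕ) (c : Fin 4 → Fin 7) :
    R n K (m + 2) c + R n K m c ≤ 2 * R n K (m + 1) c := by
  have h := F_sub (stepT n) rt K (ball n) rt_nonneg [] [] (List.replicate m []) (Rs c)
  have e1 : R n K (m + 2) c = F (stepT n) rt K (ball n) ([] :: [] :: List.replicate m []) (Rs c) := rfl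
  have e2 : R n K (m + 1) c = F (stepT n) rt K (ball n) ([] :: List.replicate m []) (Rs c) := rfl
  have e3 : R n K m c = F (stepT n) rt K (ball n) (List.replicate m []) (Rs c) := rfl
  rw [e1, e2, e3]
  linarith

lemma R_incr (n K m : ℕ) (c : Fin 4 → Fin 7) : R n K (m + 1) c - R n K m c ≤ R n K 1 c := by
  induction m with
  | zero => rw [R_zero]; simp
  | succ m ih =>
    have := R_conc n K m c
    linarith

lemma R_le (n K m : ℕ) (c : Fin 4 → Fin 7) : R n K m c ≤ m * R n K 1 c := by
  induction m with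
  | zero => rw [R_zero]; simp
  | succ m ih =>
    have := R_incr n K m c
    push_cast
    linarith

lemma stepT_root (n : ℕ) (a : Mv) : stepT n [] a = [a.1] := by
  unfold stepT
  simp

lemma rt_single (i : Fin 4) : rt [i] = 0 := by
  unfold rt
  simp

lemma rt_nil : rt [] = 1 := by
  unfold rt
  simp

open Classical in
/-- one step at the root -/
lemma R_step (n K m : ℕ) (c : Fin 4 → Fin 7) :
    R n K (m + 1) c ≤ (1 / 4) * ∑ i : Fin 4, arr n K [i] (List.replicate m []) (Rs c) := by
  have h := F_step (stepT n) rt K (ball n) rt_nonneg [] (List.replicate m []) (Rs c)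
  have e2 : R n K (m + 1) c = F (stepT n) rt K (ball n) ([] :: List.replicate m []) (Rs c) := rfl
  rw [e2]
  refine h.trans (le_of_eq ?_)
  have e3 : ∀ a : Mv, (rt (stepT n [] a) +
      (if stepT n [] a ∈ ball n ∧ stepT n [] a ∈ Rs c then
        F (stepT n) rt K (ball n) (stepT n [] a :: stepT n [] a :: List.replicate m [])
          (Rs c \ {stepT n [] a})
      else F (stepT n) rt K (ball n) (stepT n [] a :: List.replicate m []) (Rs c))) =
      arr n K [a.1] (List.replicate m []) (Rs c) := by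
    intro a
    rw [stepT_root, rt_single, zero_add]
    rfl
  unfold avg
  simp only [e3]
  rw [Fintype.sum_prod_type]
  simp only [Finset.sum_const, Finset.card_univ, Fintype.card_fin, nsmul_eq_mul, Fintype.card_prod]
  rw [← Finset.mul_sum]
  push_cast
  ring

lemma arr_le (wt : Fin 7 → ℕ → Fin 7 → ℝ) (W : Wts wt) (n K m : ℕ) (c : Fin 4 → Fin 7) (i : Fin 4) :
    arr n K [i] (List.replicate m []) (Rs c) ≤ ∑ j ∈ range 4, ∑ u : Fin 7, wt (c i) j u *
      (R n K (j + m) (Function.update c i u) + j) := by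
  have h := arrive wt W n K [i] (by simp) (by simp) (c i) (List.replicate m [])
    (by
      intro x hx
      rw [List.eq_of_mem_replicate hx]
      exact nil_not_below i) (Rs c)
    (by
      rintro ⟨k, hk⟩
      exact nil_not_below k (conf_below hk)) (Rs_inter c i)
  refine h.trans (le_of_eq ?_)
  refine Finset.sum_congr rfl fun j _ => Finset.sum_congr rfl fun u _ => ?_
  rw [Rs_update, List.tail_cons, rt_nil, mul_one]
  unfold R
  rw [List.replicate_append_replicate]

end Pool.Agent.U140.FM.PkgR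

namespace Pool.Agent.U140.FM
open Finset PkgR

/-- the bound at the root -/
theorem root_bound (wt : Fin 7 → ℕ → Fin 7 → ℝ) (W : Wts wt) (n K : ℕ) : FT n K [[]] {v | v ≠ []} ≤ 50 := by
  obtain ⟨c0, hc0⟩ := Finite.exists_max (fun c : Fin 4 → Fin 7 => R n K 1 c)
  have h0 := R_nonneg n K 1 c0
  have h1 : ∀ i : Fin 4, arr n K [i] (List.replicate 0 []) (Rs c0) ≤ (49 / 50) * (R n K 1 c0 + 1) := by
    intro i
    refine (arr_le wt W n K 0 c0 i).trans ?_
    have h2 : ∀ j ∈ range 4, ∀ u : Fin 7, wt (c0 i) j u *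
        (R n K (j + 0) (Function.update c0 i u) + j) ≤ (j * wt (c0 i) j u) * (R n K 1 c0 + 1) := by
      intro j _ u
      have h3 := R_le n K j (Function.update c0 i u)
      have h4 := hc0 (Function.update c0 i u)
      have h5 : (j : ℝ) * R n K 1 (Function.update c0 i u) ≤ j * R n K 1 c0 :=
        mul_le_mul_of_nonneg_left h4 (Nat.cast_nonneg j)
      have h6 : R n K (j + 0) (Function.update c0 i u) + j ≤ j * (R n K 1 c0 + 1) := by
        rw [add_zero]
        linarith
      have h7 := mul_le_mul_of_nonneg_left h6 (W.nonneg (c0 i) j u)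
      linarith
    refine (Finset.sum_le_sum fun j hj => Finset.sum_le_sum fun u _ => h2 j hj u).trans ?_
    simp only [← Finset.sum_mul]
    exact mul_le_mul_of_nonneg_right (W.mean (c0 i)) (by linarith)
  have h2 := R_step n K 0 c0
  have h3 : ∑ i : Fin 4, arr n K [i] (List.replicate 0 []) (Rs c0) ≤
      4 * ((49 / 50) * (R n K 1 c0 + 1)) := by
    refine (Finset.sum_le_sum fun i _ => h1 i).trans (le_of_eq ?_)
    simp
  have h4 : R n K 1 c0 ≤ 49 := by
    have : R n K (0 + 1) c0 = R n K 1 c0 := rfl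
    rw [this] at h2
    linarith
  have h5 := hc0 (fun _ => 0)
  have h6 : R n K 1 (fun _ => 0) = FT n K [[]] {v | v ≠ []} := by
    unfold R
    rw [Rs_zero]
    rfl
  rw [← h6]
  linarith

end Pool.Agent.U140.FM
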